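import Pool.Agent.H452R3.CHI.Stmts

/-! Task Bad of project H452-CHI: Markov inequality for the number of bad pairs. -/

set_option autoImplicit false
open MeasureTheory Filter Topology ProbabilityTheory

namespace Pool.Agent.H885R3.CHI

open Pool.Agent.H452R3.CHI

/-- uniform law on the unit interval -/
noncomputable abbrev nu : Measure ℝ := (volume : Measure ℝ).restrict (Set.Icc (0:ℝ) 1)

instance : IsProbabilityMeasure nu := ⟨by simp [nu]⟩

instance (n : ℕ) : IsProbabilityMeasure (typ n) := by
  unfold typ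
  exact Measure.pi.instIsProbabilityMeasure (fun _ : Fin n => nu)

theorem measurable_cidx (q : ℕ) : Measurable (cidx q) := by
  unfold cidx
  exact Nat.measurable_floor.comp (measurable_const.mul measurable_id)

theorem measurable_D {g : ℝ → ℝ → ℝ} (hg : Measurable (Function.uncurry g)) (γ : ℕ → ℕ → ℝ) (q : ℕ) :
    Measurable (fun p : ℝ × ℝ => |g p.1 p.2 - γ (cidx q p.1) (cidx q p.2)|) := by
  have h1 : Measurable (fun p : ℝ × ℝ => g p.1 p.2) := hg
  have h2 : Measurable (fun p : ℝ × ℝ => γ (cidx q p.1) (cidx q p.2)) := by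
    have h3 : Measurable (fun e : ℕ × ℕ => γ e.1 e.2) := measurable_of_countable _
    exact h3.comp (((measurable_cidx q).comp measurable_fst).prodMk
      ((measurable_cidx q).comp measurable_snd))
  exact (h1.sub h2).abs

theorem map_pair {n : ℕ} {i j : Fin n} (hij : i ≠ j) :
    (typ n).map (fun x => (x i, x j)) = nu.prod nu := by
  have h1 : iIndepFun (fun (k : Fin n) (x : Fin n → ℝ) => x k) (typ n) := by
    unfold typ
    exact iIndepFun_pi (μ := fun _ : Fin n => nu) (X := fun _ x => x) (fun _ => aemeasurable_id)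
  have h2 := h1.indepFun hij
  rw [indepFun_iff_map_prod_eq_prod_map_map (measurable_pi_apply i).aemeasurable
    (measurable_pi_apply j).aemeasurable] at h2
  rw [h2]
  have h3 : ∀ k : Fin n, (typ n).map (fun x => x k) = nu := by
    intro k
    exact (measurePreserving_eval (fun _ : Fin n => nu) k).map_eq
  rw [h3, h3]

theorem taskBad : TaskBad := by
  classical
  intro g M γ q ρ η β hg hg0 hgM hγ0 hγM hint hη hβ n hn
  set D : ℝ × ℝ → ℝ := fun p => |g p.1 p.2 - γ (cidx q p.1) (cidx q p.2)| with hD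
  have hDm : Measurable D := measurable_D hg γ q
  have hD0 : ∀ p, 0 ≤ D p := fun p => abs_nonneg _
  have hDM : ∀ p, D p ≤ M := by
    intro p
    have a1 := hg0 p.1 p.2
    have a2 := hgM p.1 p.2
    have a3 := hγ0 (cidx q p.1) (cidx q p.2)
    have a4 := hγM (cidx q p.1) (cidx q p.2)
    simp only [hD]
    rw [abs_le]
    constructor <;> linarith
  have hDint : Integrable D (nu.prod nu) := by
    refine Integrable.of_bound hDm.aestronglyMeasurable M (Eventually.of_forall fun p => ?_)
    rw [Real.norm_eq_abs, abs_of_nonneg (hD0 p)]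
    exact hDM p
  have hI : ∫ p, D p ∂(nu.prod nu) ≤ ρ := by
    rw [integral_prod _ hDint]
    exact hint
  have hI0 : 0 ≤ ∫ p, D p ∂(nu.prod nu) := integral_nonneg hD0
  have hρ : 0 ≤ ρ := hI0.trans hI
  have hlint : ∫⁻ p, ENNReal.ofReal (D p) ∂(nu.prod nu) ≤ ENNReal.ofReal ρ := by
    rw [← ofReal_integral_eq_lintegral_ofReal hDint (Eventually.of_forall hD0)]
    exact ENNReal.ofReal_le_ofReal hI
  have hA : (nu.prod nu) {p | η < D p} ≤ ENNReal.ofReal (ρ / η) := by
    have h1 : (nu.prod nu) {p | ENNReal.ofReal η ≤ ENNReal.ofReal (D p)}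
        ≤ (∫⁻ p, ENNReal.ofReal (D p) ∂(nu.prod nu)) / ENNReal.ofReal η :=
      meas_ge_le_lintegral_div hDm.ennreal_ofReal.aemeasurable
        (by rw [Ne, ENNReal.ofReal_eq_zero, not_le]; exact hη) ENNReal.ofReal_ne_top
    refine (measure_mono ?_).trans (h1.trans ?_)
    · intro p hp
      exact ENNReal.ofReal_le_ofReal (le_of_lt hp)
    · rw [ENNReal.ofReal_div_of_pos hη]
      exact ENNReal.div_le_div_right hlint _
  set B : Fin n × Fin n → Set (Fin n → ℝ) := fun e => {x | η < D (x e.1, x e.2)} with hB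
  have hBm : ∀ e, MeasurableSet (B e) := by
    intro e
    have h1 : Measurable (fun x : Fin n → ℝ => D (x e.1, x e.2)) :=
      hDm.comp ((measurable_pi_apply e.1).prodMk (measurable_pi_apply e.2))
    exact measurableSet_lt measurable_const h1
  have hBle : ∀ e : Fin n × Fin n, e.1 ≠ e.2 → typ n (B e) ≤ ENNReal.ofReal (ρ / η) := by
    intro e he
    have h1 : typ n (B e) = ((typ n).map (fun x => (x e.1, x e.2))) {p | η < D p} := by
      rw [Measure.map_apply ((measurable_pi_apply e.1).prodMk (measurable_pi_apply e.2))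
        (measurableSet_lt measurable_const hDm)]
      rfl
    rw [h1, map_pair he]
    exact hA
  set f : (Fin n → ℝ) → ENNReal := fun x =>
    ∑ e ∈ Finset.univ.filter (fun e : Fin n × Fin n => e.1 ≠ e.2), (B e).indicator 1 x with hf
  have hfm : Measurable f := by
    refine Finset.measurable_fun_sum _ fun e _ => ?_
    exact measurable_one.indicator (hBm e)
  have hfint : ∫⁻ x, f x ∂(typ n) ≤ ENNReal.ofReal ((n:ℝ) ^ 2 * (ρ / η)) := by
    rw [lintegral_finsetSum _ fun e _ => measurable_one.indicator (hBm e)]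
    calc ∑ e ∈ Finset.univ.filter (fun e : Fin n × Fin n => e.1 ≠ e.2),
          ∫⁻ x, (B e).indicator 1 x ∂(typ n)
        ≤ ∑ e ∈ Finset.univ.filter (fun e : Fin n × Fin n => e.1 ≠ e.2),
          ENNReal.ofReal (ρ / η) := by
          refine Finset.sum_le_sum fun e he => ?_
          rw [lintegral_indicator_one (hBm e)]
          exact hBle e (Finset.mem_filter.1 he).2
      _ ≤ ∑ _e : Fin n × Fin n, ENNReal.ofReal (ρ / η) :=
          Finset.sum_le_sum_of_subset (Finset.filter_subset _ _)
      _ = ENNReal.ofReal ((n:ℝ) ^ 2 * (ρ / η)) := by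
          rw [Finset.sum_const, Finset.card_univ, Fintype.card_prod, Fintype.card_fin,
            nsmul_eq_mul, ENNReal.ofReal_mul (by positivity)]
          congr 1
          rw [← Nat.cast_pow, ENNReal.ofReal_natCast, pow_two]
  have hn0 : (0:ℝ) < n := by exact_mod_cast hn
  have hc : 0 < β * (n:ℝ) ^ 2 := by positivity
  have hfx : ∀ x, f x = ((Finset.univ.filter (fun e : Fin n × Fin n =>
        e.1 ≠ e.2 ∧ η < |g (x e.1) (x e.2) - γ (cidx q (x e.1)) (cidx q (x e.2))|)).card : ENNReal) := by
    intro x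
    rw [Finset.card_eq_sum_ones, Nat.cast_sum, ← Finset.filter_filter,
      Finset.sum_filter (p := fun e : Fin n × Fin n =>
        η < |g (x e.1) (x e.2) - γ (cidx q (x e.1)) (cidx q (x e.2))|)]
    refine Finset.sum_congr rfl fun e _ => ?_
    by_cases h : x ∈ B e
    · have h' : η < |g (x e.1) (x e.2) - γ (cidx q (x e.1)) (cidx q (x e.2))| := h
      rw [Set.indicator_of_mem h, if_pos h']
      simp
    · have h' : ¬ η < |g (x e.1) (x e.2) - γ (cidx q (x e.1)) (cidx q (x e.2))| := h
      rw [Set.indicator_of_notMem h, if_neg h']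
  have hmain := meas_ge_le_lintegral_div (μ := typ n) hfm.aemeasurable
    (ε := ENNReal.ofReal (β * (n:ℝ) ^ 2))
    (by rw [Ne, ENNReal.ofReal_eq_zero, not_le]; exact hc) ENNReal.ofReal_ne_top
  refine (measure_mono ?_).trans (hmain.trans ?_)
  · intro x hx
    show ENNReal.ofReal (β * (n:ℝ) ^ 2) ≤ f x
    rw [hfx x, ← ENNReal.ofReal_natCast]
    exact ENNReal.ofReal_le_ofReal (le_of_lt hx)
  · refine (ENNReal.div_le_div_right hfint _).trans ?_
    rw [← ENNReal.ofReal_div_of_pos hc]
    refine ENNReal.ofReal_le_ofReal (le_of_eq ?_)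
    field_simp

end Pool.Agent.H885R3.CHI
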